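import Pool.Agent.Helper58.AM.Sheet

/-! Row PRC of the sheet AM (MP_98699e_co). -/

set_option autoImplicit false

open Finset

namespace Pool.Agent.Helper58.AM

/-- the first five properties -/
def PRC55 {M V : Type} [AddCommGroup M] (g : V → M) (U : Finset V) (k : ℕ) : Prop :=
  ∃ (R : Finset V) (S : Finset M), R ⊆ U ∧ R.card ≤ 2 * k ∧ k + 1 ≤ S.card ∧
    ∀ s ∈ S, ∃ L ⊆ R, L.card = k ∧ ∑ z ∈ L, g z = s

theorem prc55_zero {M V : Type} [AddCommGroup M] (g : V → M) (U : Finset V) :
    PRC55 g U 0 := by
  refine ⟨∅, {0}, Finset.empty_subset _, by simp, by simp, ?_⟩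
  intro s hs
  rw [Finset.mem_singleton] at hs
  exact ⟨∅, Finset.Subset.refl _, by simp, by simp [hs]⟩

theorem prc55_step {M V : Type} [AddCommGroup M] [DecidableEq M] [DecidableEq V]
    (g : V → M) (U : Finset V) (k : ℕ) (R : Finset V) (S : Finset M)
    (hR : R ⊆ U) (hRc : R.card ≤ 2 * k) (hSc : k + 1 ≤ S.card)
    (hS : ∀ s ∈ S, ∃ L ⊆ R, L.card = k ∧ ∑ z ∈ L, g z = s) (hk : ¬ PRC55 g U (k + 1))
    (p q : V) (hp : p ∈ U \ R) (hq : q ∈ U \ R) (hpq : p ≠ q) :
    S.card = k + 1 ∧ ∀ s ∈ S, s + (g p - g q) ∈ S := by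
  rw [Finset.mem_sdiff] at hp hq
  set S1 : Finset M := S.image (fun s => g p + s) with hS1
  set S2 : Finset M := S.image (fun s => g q + s) with hS2
  have c1 : S1.card = S.card := Finset.card_image_of_injective _ (add_right_injective _)
  have c2 : S2.card = S.card := Finset.card_image_of_injective _ (add_right_injective _)
  have hlt : (S1 ∪ S2).card < k + 1 + 1 := by
    by_contra hcon
    rw [not_lt] at hcon
    refine hk ⟨insert p (insert q R), S1 ∪ S2, ?_, ?_, hcon, ?_⟩
    · intro x hx
      rw [Finset.mem_insert, Finset.mem_insert] at hx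
      rcases hx with rfl | rfl | hx
      · exact hp.1
      · exact hq.1
      · exact hR hx
    · have h1 := Finset.card_insert_le p (insert q R)
      have h2 := Finset.card_insert_le q R
      omega
    · intro s hs
      rw [Finset.mem_union, hS1, hS2, Finset.mem_image, Finset.mem_image] at hs
      rcases hs with ⟨t, ht, rfl⟩ | ⟨t, ht, rfl⟩
      · obtain ⟨L, hL, hLc, hLs⟩ := hS t ht
        have hn : p ∉ L := fun h => hp.2 (hL h)
        refine ⟨insert p L, ?_, ?_, ?_⟩
        · intro x hx
          rw [Finset.mem_insert] at hx ⊢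
          rcases hx with rfl | hx
          · exact Or.inl rfl
          · exact Or.inr (Finset.mem_insert_of_mem (hL hx))
        · rw [Finset.card_insert_of_notMem hn, hLc]
        · rw [Finset.sum_insert hn, hLs]
      · obtain ⟨L, hL, hLc, hLs⟩ := hS t ht
        have hn : q ∉ L := fun h => hq.2 (hL h)
        refine ⟨insert q L, ?_, ?_, ?_⟩
        · intro x hx
          rw [Finset.mem_insert] at hx
          rcases hx with rfl | hx
          · exact Finset.mem_insert_of_mem (Finset.mem_insert_self _ _)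
          · exact Finset.mem_insert_of_mem (Finset.mem_insert_of_mem (hL hx))
        · rw [Finset.card_insert_of_notMem hn, hLc]
        · rw [Finset.sum_insert hn, hLs]
  have h1 : S1 ⊆ S1 ∪ S2 := Finset.subset_union_left
  have h2 : S2 ⊆ S1 ∪ S2 := Finset.subset_union_right
  have h1c := Finset.card_le_card h1
  have hSk : S.card = k + 1 := by omega
  refine ⟨hSk, ?_⟩
  have e2 : S2 = S1 ∪ S2 := Finset.eq_of_subset_of_card_le h2 (by omega)
  intro s hs
  have hm : g p + s ∈ S2 := by
    rw [e2]
    exact h1 (Finset.mem_image_of_mem _ hs)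
  rw [hS2, Finset.mem_image] at hm
  obtain ⟨t, ht, hts⟩ := hm
  have e : s + (g p - g q) = t := by
    have : t = g p + s - g q := by rw [← hts]; abel
    rw [this]
    abel
  rw [e]
  exact ht

theorem st_PRC : ST_PRC := by
  intro M V _ _ _ _ g U a
  classical
  have hex : ∃ k, k ≤ a ∧ PRC55 g U k ∧ (k = a ∨ ¬ PRC55 g U (k + 1)) := by
    refine ⟨Nat.findGreatest (fun k => PRC55 g U k) a, Nat.findGreatest_le a,
      Nat.findGreatest_spec (P := fun k => PRC55 g U k) (Nat.zero_le a) (prc55_zero g U), ?_⟩
    rcases Nat.lt_or_ge (Nat.findGreatest (fun k => PRC55 g U k) a) a with h | h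
    · right
      exact Nat.findGreatest_is_greatest (Nat.lt_succ_self _) h
    · left
      exact le_antisymm (Nat.findGreatest_le a) h
  obtain ⟨k, hka, ⟨R, S, hR, hRc, hSc, hS⟩, hk⟩ := hex
  refine ⟨k, R, S, hka, hR, hRc, hSc, hS, ?_⟩
  rcases Nat.lt_or_ge k a with hlt | hge
  · right
    have hk' : ¬ PRC55 g U (k + 1) := by
      rcases hk with h | h
      · omega
      · exact h
    constructor
    · intro hU
      have h1 := Finset.le_card_sdiff R U
      have h2 : 1 < (U \ R).card := by omega
      obtain ⟨p, hp, q, hq, hpq⟩ := Finset.one_lt_card.1 h2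
      exact (prc55_step g U k R S hR hRc hSc hS hk' p q hp hq hpq).1
    · intro p hp q hq s hs
      by_cases hpq : p = q
      · rw [hpq, sub_self, add_zero]
        exact hs
      · exact (prc55_step g U k R S hR hRc hSc hS hk' p q hp hq hpq).2 s hs
  · left
    omega

end Pool.Agent.Helper58.AM
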