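import Pool.Agent.Helper58.AM.Sheet

/-! Row STR of the sheet AM (MP_98699e_co). -/

set_option autoImplicit false

open Finset

namespace Pool.Agent.Helper58.AM

theorem st_STR (h1 : ST_STK) : ST_STR := by
  classical
  intro M V _ _ g U H0 γ0 hU
  induction hn : Nat.card H0 using Nat.strong_induction_on generalizing U H0 γ0 with
  | _ n ih =>
    subst hn
    rcases h1 M V g U H0 γ0 hU with ⟨k, R, hR, hRc, hk, hx⟩ | ⟨k, R, K, δ, hR, hRc, hK, hk, hδ⟩
    · refine ⟨H0, γ0, k, R, le_rfl, hR, hRc, hk, ?_, hx⟩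
      have he : U.filter (fun u => g u - γ0 ∉ H0) = ∅ := by
        rw [Finset.filter_eq_empty_iff]
        intro u hu hc
        exact hc (hU u hu)
      rw [he, Finset.card_empty, zero_add]
    · obtain ⟨H, γ, k', R', a1, a2, a3, a4, a5, a6⟩ :=
        ih (Nat.card K) (by omega) (U \ R) K δ hδ rfl
      refine ⟨H, γ, k', R', a1.trans hK.le, a2.trans Finset.sdiff_subset, a3, a4, ?_, a6⟩
      have hsub : U.filter (fun u => g u - γ ∉ H) ⊆
          (U \ R).filter (fun u => g u - γ ∉ H) ∪ R := by
        intro u hu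
        rw [Finset.mem_filter] at hu
        rw [Finset.mem_union, Finset.mem_filter, Finset.mem_sdiff]
        by_cases hr : u ∈ R
        · exact Or.inr hr
        · exact Or.inl ⟨⟨hu.1, hr⟩, hu.2⟩
      have h2 := (Finset.card_le_card hsub).trans (Finset.card_union_le _ _)
      omega

end Pool.Agent.Helper58.AM
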